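import Mathlib

namespace Pool.Agent.Results.MP_b1aa48_co.Counter

open Set

/-- join- and meet-semidistributive -/
def SD (L : Type) [Lattice L] : Prop :=
  (∀ x y z : L, x ⊔ y = x ⊔ z → x ⊔ (y ⊓ z) = x ⊔ y) ∧
    ∀ x y z : L, x ⊓ y = x ⊓ z → x ⊓ (y ⊔ z) = x ⊓ y

/-- `A` is the canonical join representation of `w` -/
def CJR {L : Type} [Lattice L] (A : Set L) (w : L) : Prop :=
  IsLUB A w ∧ (∀ B ⊂ A, ¬ IsLUB B w) ∧ ∀ B, IsLUB B w → ∀ a ∈ A, ∃ b ∈ B, a ≤ b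

def Face {L : Type} [Lattice L] (A : Set L) : Prop := ∃ w, CJR A w

section
variable {L : Type} [Lattice L] [Finite L]

theorem kappa (h : SD L) {j : L} (hj : SupIrred j) : ∃ s k : L, s < j ∧ (∀ y < j, y ≤ s) ∧ s ≤ k ∧
    ¬ j ≤ k ∧ ∀ y, s ≤ y → ¬ j ≤ y → y ≤ k := by
  obtain ⟨t, ht⟩ := not_isMin_iff.1 hj.1
  obtain ⟨s, s1, s2⟩ := Finite.exists_maximal (toFinite {y | y < j}) ⟨t, ht⟩
  have s3 : ∀ y < j, y ≤ s := fun y hy => le_sup_right.trans (s2 (y := s ⊔ y)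
    ((sup_le s1.le hy.le).lt_of_ne fun e => (hj.2 e).elim s1.ne hy.ne) le_sup_left)
  obtain ⟨k, k1, k2⟩ := Finite.exists_maximal (toFinite {y | s ≤ y ∧ ¬ j ≤ y})
    ⟨s, le_rfl, s1.not_ge⟩
  have m : ∀ y, s ≤ y → ¬ j ≤ y → j ⊓ y = s := fun y a b =>
    le_antisymm (s3 _ (inf_lt_left.2 b)) (le_inf s1.le a)
  refine ⟨s, k, s1, s3, k1.1, k1.2, fun y a b => le_sup_right.trans (k2 (y := k ⊔ y)
    ⟨k1.1.trans le_sup_left, fun g => ?_⟩ le_sup_left)⟩
  have := h.2 j k y ((m k k1.1 k1.2).trans (m y a b).symm)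
  rw [inf_eq_left.2 g, m k k1.1 k1.2] at this
  exact s1.ne' this

theorem colour (h : SD L) (tri : ∀ x y z : {j : L // SupIrred j}, x ≠ y → y ≠ z → x ≠ z →
    Face {x.1, y.1} ∨ Face {y.1, z.1} ∨ Face {x.1, z.1}) :
    ∃ c : {j : L // SupIrred j} → Fin 3, ∀ x y, x ≠ y → ¬ Face {x.1, y.1} → c x ≠ c y := by
  classical
  choose s k s1 s2 s3 k1 k2 using fun j : {j : L // SupIrred j} => kappa h j.2
  have f2 : ∀ x z : {j : L // SupIrred j}, x ≠ z → Face {x.1, z.1} → x.1 ≤ k z := by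
    rintro x z n ⟨w, a1, a2, a3⟩
    refine le_sup_right.trans (k2 z (s z ⊔ x) le_sup_left fun g => ?_)
    have e : w = s z ⊔ x := le_antisymm (a1.2 (by
      rintro _ (rfl | rfl); exacts [le_sup_right, g]))
      (sup_le ((s1 z).le.trans (a1.1 (by simp))) (a1.1 (by simp)))
    obtain ⟨b, rfl | rfl, g⟩ := a3 _ (e ▸ isLUB_pair) z (by simp)
    · exact (s1 z).not_ge g
    · refine a2 {x.1} ⟨by simp, fun q => n (Subtype.ext (q (by simp)).symm)⟩ ?_
      rw [a1.unique isLUB_pair, sup_eq_left.2 g]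
      exact isLUB_singleton
  have f3 : ∀ x z : {j : L // SupIrred j}, z.1 ≤ k x → ∀ B, IsLUB B (x.1 ⊔ z.1) →
      ∃ b ∈ B, x.1 ≤ b := by
    intro x z a B hB
    obtain ⟨b, b1, b2⟩ : ∃ b ∈ B, ¬ b ≤ k x := by
      by_contra! g
      exact k1 x (le_sup_left.trans (hB.2 g))
    refine ⟨b, b1, by_contra fun g => ?_⟩
    have x1 : x.1 ≤ s x ⊔ b := by_contra fun q => b2 (le_sup_right.trans (k2 x _ le_sup_left q))
    have e := h.1 (s x ⊔ z) x b (le_antisymm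
      (sup_le le_sup_left (x1.trans (sup_le_sup_right le_sup_left _)))
      (sup_le le_sup_left ((hB.1 b1).trans
        (sup_le le_sup_right (le_sup_right.trans le_sup_left)))))
    exact k1 x (le_sup_right.trans (e.ge.trans (sup_le (sup_le (s3 x) a)
      ((s2 x _ (inf_lt_left.2 g)).trans (s3 x)))))
  have f4 : ∀ x z : {j : L // SupIrred j}, x.1 ≤ k z → z.1 ≤ k x → Face {x.1, z.1} := by
    intro x z a b
    refine ⟨_, isLUB_pair, fun B hB g => ?_, fun B hB => ?_⟩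
    · obtain ⟨p, p1, p2⟩ := f3 x z b B g
      obtain ⟨q, q1, q2⟩ := f3 z x a B (sup_comm x.1 z.1 ▸ g)
      refine hB.2 ?_
      rintro _ (rfl | rfl)
      · exact (hB.1 p1).elim (· ▸ p1) fun e => absurd (p2.trans (e.le.trans b)) (k1 x)
      · exact (hB.1 q1).elim (fun e => absurd (q2.trans (e.le.trans a)) (k1 z)) (· ▸ q1)
    · rintro _ (rfl | rfl)
      exacts [f3 x z b B hB, f3 z x a B (sup_comm x.1 z.1 ▸ hB)]
  have t : ∀ x y z : {j : L // SupIrred j}, x ≠ y → y ≠ z → x ≠ z →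
      ¬ x.1 ≤ k y → ¬ y.1 ≤ k z → x.1 ≤ k z := fun x y z a b c d e =>
    (tri x y z a b c).elim (fun g => absurd (f2 _ _ a g) d) fun g =>
      g.elim (fun g => absurd (f2 _ _ b g) e) (f2 _ _ c)
  have main : ∀ x z : {j : L // SupIrred j}, x ≠ z → ¬ x.1 ≤ k z →
      (∀ w ≠ z, z.1 ≤ k w) ∨ ∀ w ≠ x, w.1 ≤ k x := by
    intro x z n a
    obtain ⟨y, ⟨y1, y2⟩, y3⟩ := Finite.exists_minimal (toFinite {y | y ≤ x.1 ∧ ¬ y ≤ k z})
      ⟨x, le_rfl, a⟩
    have y4 : ∀ u < y, u ≤ k z := fun u g => by_contra fun q =>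
      g.not_ge (y3 (y := u) ⟨g.le.trans y1, q⟩ g.le)
    have hy : SupIrred y := ⟨fun m => y2 ((m inf_le_left).trans inf_le_right), fun p q e =>
      by_contra fun g => by
        rw [not_or] at g
        exact y2 (e ▸ sup_le (y4 _ ((e ▸ le_sup_left : p ≤ y).lt_of_ne g.1))
          (y4 _ ((e ▸ le_sup_right : q ≤ y).lt_of_ne g.2)))⟩
    have y5 : k z ≤ k ⟨y, hy⟩ := k2 _ _ (y4 _ (s1 ⟨y, hy⟩)) y2
    by_cases c1 : ⟨y, hy⟩ = z
    · subst c1
      refine Or.inl fun w b => by_contra fun g => ?_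
      by_cases e : x = w
      · subst e
        exact g ((s2 x _ (y1.lt_of_ne fun q => b (Subtype.ext q.symm))).trans (s3 x))
      · exact g (y1.trans (t _ _ _ n b.symm e a g))
    by_cases c2 : x = ⟨y, hy⟩
    · subst c2
      refine Or.inr fun w b => by_contra fun g => ?_
      by_cases e : w = z
      · subst e
        have e1 : k ⟨y, hy⟩ = k w := le_antisymm (k2 _ _ ((s3 w).trans y5) g) y5
        have up : ∀ p q : {j : L // SupIrred j}, ¬ q.1 ≤ k p → p.1 ≤ k p ⊔ q := fun p q r =>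
          by_contra fun u => r (le_sup_right.trans (k2 p _ ((s3 p).trans le_sup_left) u))
        have u1 := up w ⟨y, hy⟩ a
        have u2 := up ⟨y, hy⟩ w g
        rw [e1] at u2
        have e := h.1 (k w) w y (le_antisymm (sup_le le_sup_left u1) (sup_le le_sup_left u2))
        have l : w.1 ⊓ y ≤ k w := by
          by_cases q : w.1 ≤ y
          · exact absurd (y4 _ (q.lt_of_ne fun r => b (Subtype.ext r))) (k1 w)
          · exact (s2 w _ (inf_lt_left.2 q)).trans (s3 w)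
        exact k1 w (le_sup_right.trans (e.ge.trans (sup_le le_rfl l)))
      · exact g ((t _ _ _ b n e g a).trans y5)
    · exact absurd (t _ _ _ c2 c1 n (fun g => k1 ⟨y, hy⟩ (y1.trans g)) y2) a
  let c : {j : L // SupIrred j} → Fin 3 := fun x =>
    if ∀ w ≠ x, x.1 ≤ k w then 0 else if ∀ w ≠ x, w.1 ≤ k x then 1 else 2
  have key : ∀ x z : {j : L // SupIrred j}, x ≠ z → ¬ x.1 ≤ k z → c x ≠ c z := by
    intro x z n a
    have a1 : ¬ ∀ w ≠ x, x.1 ≤ k w := fun g => a (g z n.symm)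
    have a2 : ¬ ∀ w ≠ z, w.1 ≤ k z := fun g => a (g x n)
    simp only [c, if_neg a1, if_neg a2]
    rcases main x z n a with g | g
    · rw [if_pos g]; split_ifs <;> decide
    · rw [if_pos g]; split_ifs <;> decide
  refine ⟨c, fun x y n g => ?_⟩
  by_cases a : x.1 ≤ k y
  · exact (key y x n.symm fun b => g (f4 x y a b)).symm
  · exact key x y n a

end

/-- the Grötzsch graph, edges listed with the smaller end first -/
def E (a b : Fin 11) : Prop := (a, b) ∈ [(0, 1), (1, 2), (2, 3), (3, 4), (0, 4), (1, 5), (4, 5),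
  (0, 6), (2, 6), (1, 7), (3, 7), (2, 8), (4, 8), (0, 9), (3, 9), (5, 10), (6, 10), (7, 10),
  (8, 10), (9, 10)]

instance : DecidableRel E := by unfold E; infer_instance

theorem E_lt : ∀ a b, E a b → a < b := by decide +kernel

abbrev U := Fin 11 ⊕ Fin 11 × Fin 11

def out : U → Set U
  | .inl x => {.inl x} ∪ {u | ∃ z, E x z ∧ (u = .inl z ∨ u = .inr (x, z))}
  | .inr p => {.inr p, .inl p.2}

def L := {O : Set U // ∀ d ∈ O, ∃ a, d ∈ out a ∧ out a ⊆ O}

instance : Finite L := by unfold L; infer_instance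

instance : Lattice L :=
  { (inferInstance : PartialOrder {O : Set U // ∀ d ∈ O, ∃ a, d ∈ out a ∧ out a ⊆ O}) with
    sup := fun a b => ⟨a.1 ∪ b.1, fun d h => h.elim
      (fun h => (a.2 d h).imp fun _ g => ⟨g.1, g.2.trans subset_union_left⟩)
      fun h => (b.2 d h).imp fun _ g => ⟨g.1, g.2.trans subset_union_right⟩⟩
    le_sup_left := fun _ _ => subset_union_left
    le_sup_right := fun _ _ => subset_union_right
    sup_le := fun _ _ _ => union_subset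
    inf := fun a b => ⟨{d | ∃ g, d ∈ out g ∧ out g ⊆ a.1 ∩ b.1},
      fun _ ⟨g, h⟩ => ⟨g, h.1, fun _ e => ⟨g, e, h.2⟩⟩⟩
    inf_le_left := fun _ _ _ ⟨_, h⟩ => (h.2 h.1).1
    inf_le_right := fun _ _ _ ⟨_, h⟩ => (h.2 h.1).2
    le_inf := fun a _ _ h h' d m => (a.2 d m).imp fun _ g =>
      ⟨g.1, g.2.trans (subset_inter h h')⟩ }

theorem r1 (O : L) {p} (h : Sum.inr p ∈ O.1) : out (.inr p) ⊆ O.1 := by
  obtain ⟨x | q, a, b⟩ := O.2 _ h
  · simp only [out, mem_union, mem_singleton_iff, reduceCtorEq, mem_ofPred_eq, Sum.inr.injEq,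
      false_or] at a
    obtain ⟨z, e, rfl⟩ := a
    rintro _ (rfl | rfl)
    exacts [h, b (Or.inr ⟨z, e, Or.inl rfl⟩)]
  · obtain rfl : p = q := by simpa [out] using a
    exact b

theorem r2 (O : L) {x} (h : Sum.inl x ∈ O.1) : out (.inl x) ⊆ O.1 ∨ ∃ w, .inr (w, x) ∈ O.1 := by
  obtain ⟨w | ⟨w, z⟩, a, b⟩ := O.2 _ h
  · simp only [out, mem_union, mem_singleton_iff, reduceCtorEq, mem_ofPred_eq, Sum.inl.injEq,
      or_false] at a
    rcases a with rfl | ⟨z, e, rfl⟩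
    exacts [Or.inl b, Or.inr ⟨w, b (Or.inr ⟨_, e, Or.inr rfl⟩)⟩]
  · obtain rfl : x = z := by simpa [out] using a
    exact Or.inr ⟨w, b (Or.inl rfl)⟩

theorem sd : SD L := by
  refine ⟨fun a b c h => le_antisymm (sup_le_sup_left inf_le_left _) fun d m => ?_,
    fun a b c h => le_antisymm ?_ (inf_le_inf_left _ le_sup_left)⟩
  · by_cases n : d ∈ a.1
    · exact Or.inl n
    have h' : a.1 ∪ b.1 = a.1 ∪ c.1 := congrArg Subtype.val h
    have m1 : d ∈ b.1 := m.resolve_left n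
    have m2 : d ∈ c.1 := (h' ▸ m : d ∈ a.1 ∪ c.1).resolve_left n
    rcases d with x | p
    · have na : ∀ w, .inr (w, x) ∉ a.1 := fun w g => n (r1 a g (Or.inr rfl))
      rcases r2 b m1 with g | ⟨w, g⟩
      · rcases r2 c m2 with g' | ⟨w, g'⟩
        · exact Or.inr ⟨.inl x, Or.inl rfl, subset_inter g g'⟩
        · exact Or.inr ⟨.inr (w, x), Or.inr rfl, subset_inter (r1 b
            ((h'.symm ▸ Or.inr g' : _ ∈ a.1 ∪ b.1).resolve_left (na w))) (r1 c g')⟩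
      · exact Or.inr ⟨.inr (w, x), Or.inr rfl, subset_inter (r1 b g) (r1 c
          ((h' ▸ Or.inr g : _ ∈ a.1 ∪ c.1).resolve_left (na w)))⟩
    · exact Or.inr ⟨.inr p, Or.inl rfl, subset_inter (r1 b m1) (r1 c m2)⟩
  · have k : ∀ p, .inr p ∈ a.1 → .inr p ∈ b.1 ∪ c.1 → out (.inr p) ⊆ (a ⊓ b).1 := by
      rintro p g (m | m) u hu
      · exact ⟨_, hu, subset_inter (r1 a g) (r1 b m)⟩
      · rw [h]; exact ⟨_, hu, subset_inter (r1 a g) (r1 c m)⟩
    rintro d ⟨x | p, m, g⟩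
    · have k2 : ∀ O : L, (a ⊓ b).1 ⊆ O.1 → .inl x ∈ O.1 → out (.inl x) ⊆ a.1 ∩ O.1 := by
        rintro O o1 o2 u hu
        refine ⟨(g hu).1, ?_⟩
        rcases hu with rfl | ⟨z, e, hu⟩
        · exact o2
        · have := g (Or.inr ⟨z, e, Or.inr rfl⟩)
          exact o1 (k _ this.1 this.2 hu.symm)
      rcases (g (Or.inl rfl)).2 with o | o
      · exact ⟨_, m, k2 b (inf_le_right (a := a)) o⟩
      · rw [h]; exact ⟨_, m, k2 c (h ▸ inf_le_right (a := a)) o⟩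
    · exact k p (g (Or.inl rfl)).1 (g (Or.inl rfl)).2 m

def e (a : U) : L := ⟨out a, fun _ h => ⟨a, h, Subset.rfl⟩⟩

theorem face (x z : Fin 11) (n : x ≠ z) : Face {e (.inl x), e (.inl z)} ↔ ¬ E x z ∧ ¬ E z x := by
  have ne : ∀ x z, E x z → ¬ Face {e (.inl x), e (.inl z)} := by
    rintro x z h ⟨w, a1, a2, a3⟩
    obtain rfl := isLUB_pair.unique a1
    have lt := E_lt _ _ h
    obtain ⟨b, rfl | ⟨u, hu, rfl⟩, g⟩ := a3 (insert (e (.inl x)) {b | ∃ u, E z u ∧ b = e (.inr (z, u))})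
      ⟨by
        rintro _ (rfl | ⟨u, hu, rfl⟩)
        · exact le_sup_left
        · rintro _ (rfl | rfl)
          exacts [Or.inr (Or.inr ⟨u, hu, Or.inr rfl⟩), Or.inr (Or.inr ⟨u, hu, Or.inl rfl⟩)],
      fun O hO => sup_le (hO (Or.inl rfl)) (by
        rintro _ (rfl | ⟨u, hu, g⟩)
        · exact hO (Or.inl rfl) (Or.inr ⟨z, h, Or.inl rfl⟩)
        · exact hO (Or.inr ⟨u, hu, rfl⟩) g.symm)⟩ (e (.inl z)) (by simp)
    · refine a2 {e (.inl x)} ⟨by simp, fun q => ?_⟩ (by rw [sup_eq_left.2 g]; exact isLUB_singleton)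
      have : Sum.inl x ∈ (e (.inl z)).1 := (q (by simp) : e (.inl z) = _) ▸ Or.inl rfl
      simp only [e, out, mem_union, mem_singleton_iff, reduceCtorEq, mem_ofPred_eq, Sum.inl.injEq,
        or_false] at this
      rcases this with rfl | ⟨_, t, rfl⟩
      exacts [lt.false, lt_asymm lt (E_lt _ _ t)]
    · have := g (Or.inl rfl)
      simp only [e, out, mem_insert_iff, mem_singleton_iff, reduceCtorEq, Sum.inl.injEq,
        false_or] at this
      exact (E_lt _ _ hu).ne this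
  refine ⟨fun h => ⟨fun g => ne _ _ g h, fun g => ne _ _ g (pair_comm _ _ ▸ h)⟩, fun h => ?_⟩
  have k : ∀ x z, ¬ E z x → ∀ B, IsLUB B (e (.inl x) ⊔ e (.inl z)) → ∃ b ∈ B, e (.inl x) ≤ b := by
    intro x z h B hB
    let O : L := ⟨⋃ b ∈ B, b.1, fun d m => by
      obtain ⟨b, b1, b2⟩ := mem_iUnion₂.1 m
      exact (b.2 d b2).imp fun _ g =>
        ⟨g.1, g.2.trans (subset_biUnion_of_mem (u := fun b : L => b.1) b1)⟩⟩
    have : Sum.inl x ∈ O.1 := @hB.2 O (fun b m => subset_biUnion_of_mem (u := fun b : L => b.1) m) _ (Or.inl (Or.inl rfl))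
    obtain ⟨b, b1, b2⟩ := mem_iUnion₂.1 this
    refine ⟨b, b1, (r2 b b2).resolve_right fun ⟨w, g⟩ => ?_⟩
    have : Sum.inr (w, x) ∈ out (.inl x) ∪ out (.inl z) := hB.1 b1 g
    simp only [ out, mem_union, mem_singleton_iff, reduceCtorEq, mem_ofPred_eq, Sum.inr.injEq,
      false_or, Prod.mk.injEq] at this
    rcases this with ⟨_, t, rfl, rfl⟩ | ⟨_, t, rfl, rfl⟩
    exacts [(E_lt _ _ t).false, h t]
  have nl : ∀ x z, x ≠ z → ¬ E z x → ¬ e (.inl x) ≤ e (.inl z) := fun x z n h g => by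
    simpa [e, out, n, h] using g (Or.inl rfl)
  refine ⟨_, isLUB_pair, fun B hB g => ?_, fun B hB => ?_⟩
  · obtain ⟨p, p1, p2⟩ := k x z h.2 B g
    obtain ⟨q, q1, q2⟩ := k z x h.1 B (sup_comm (e (.inl x)) _ ▸ g)
    refine hB.2 ?_
    rintro _ (rfl | rfl)
    · exact (hB.1 p1).elim (· ▸ p1) fun t => absurd (p2.trans t.le) (nl _ _ n h.2)
    · exact (hB.1 q1).elim (fun t => absurd (q2.trans t.le) (nl _ _ n.symm h.1)) (· ▸ q1)
  · rintro _ (rfl | rfl)
    exacts [k x z h.2 B hB, k z x h.1 B (sup_comm (e (.inl x)) _ ▸ hB)]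

theorem irr (x : Fin 11) : SupIrred (e (.inl x)) := by
  refine ⟨fun m => m (b := ⟨∅, by simp⟩) (empty_subset _) (Or.inl rfl), fun a b h => ?_⟩
  have k : ∀ a : L, a ≤ e (.inl x) → .inl x ∈ a.1 → a = e (.inl x) := fun a l m =>
    le_antisymm l ((r2 a m).resolve_right fun ⟨w, g⟩ => by
      have := l g
      simp only [e, out, mem_union, mem_singleton_iff, reduceCtorEq, mem_ofPred_eq, Sum.inr.injEq,
        false_or, Prod.mk.injEq] at this
      obtain ⟨_, t, rfl, rfl⟩ := this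
      exact (E_lt _ _ t).false)
  exact (h.ge (Or.inl rfl)).imp (k a (h ▸ le_sup_left)) (k b (h ▸ le_sup_right))

theorem inj : Function.Injective fun x => e (.inl x) := by
  have k : ∀ x z, e (.inl x) = e (.inl z) → z ≤ x := fun x z h => by
    have := h.le (Or.inl rfl)
    simp only [e, out, mem_union, mem_singleton_iff, reduceCtorEq, mem_ofPred_eq, Sum.inl.injEq,
      or_false] at this
    rcases this with rfl | ⟨_, t, rfl⟩
    exacts [le_rfl, (E_lt _ _ t).le]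
  exact fun x z h => le_antisymm (k z x h.symm) (k x z h)

def ex (x y b : Fin 3) : Prop := ∃ a, x ≠ a ∧ y ≠ a ∧ a ≠ b

instance (x y b) : Decidable (ex x y b) := by unfold ex; infer_instance

theorem three : ∀ a0 a1 : Fin 3, a0 ≠ a1 → ∀ a2, a1 ≠ a2 → ∀ a3, a2 ≠ a3 → ∀ a4,
    a3 ≠ a4 ∧ a0 ≠ a4 → ∀ b, ¬ (ex a1 a4 b ∧ ex a0 a2 b ∧ ex a1 a3 b ∧ ex a2 a4 b ∧ ex a0 a3 b) := by
  decide +kernel

theorem result : ∃ (L : Type) (_ : Lattice L) (_ : Finite L) (W : Set L), SD L ∧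
    (∀ j ∈ W, SupIrred j) ∧ ∀ (K : Type) [Lattice K] [Finite K], SD K →
      ¬ ∃ φ : W ≃ {j : K // SupIrred j},
        ∀ A : Set W, Face (Subtype.val '' A) ↔ Face ((fun a => (φ a).1) '' A) := by
  refine ⟨L, inferInstance, inferInstance, range fun x => e (.inl x), sd,
    by rintro _ ⟨x, rfl⟩; exact irr x, fun K _ _ hK ⟨φ, h⟩ => ?_⟩
  let ψ := (Equiv.ofInjective _ inj).trans φ
  have f : ∀ x z, x ≠ z → (Face {(ψ x).1, (ψ z).1} ↔ ¬ E x z ∧ ¬ E z x) := fun x z n => by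
    rw [← face x z n]
    have := h {⟨_, x, rfl⟩, ⟨_, z, rfl⟩}
    rw [image_pair, image_pair] at this
    exact this.symm
  obtain ⟨c, hc⟩ := colour hK fun x y z a b d => by
    obtain ⟨x, rfl⟩ := ψ.surjective x
    obtain ⟨y, rfl⟩ := ψ.surjective y
    obtain ⟨z, rfl⟩ := ψ.surjective z
    rw [f _ _ (ψ.injective.ne_iff.1 a), f _ _ (ψ.injective.ne_iff.1 b),
      f _ _ (ψ.injective.ne_iff.1 d)]
    clear a b d
    revert x y z
    decide +kernel
  have g : ∀ x z, E x z → c (ψ x) ≠ c (ψ z) := fun x z t =>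
    hc _ _ (ψ.injective.ne (E_lt _ _ t).ne) fun q => ((f _ _ (E_lt _ _ t).ne).1 q).1 t
  exact three _ _ (g 0 1 (by decide)) _ (g 1 2 (by decide)) _ (g 2 3 (by decide)) _
    ⟨g 3 4 (by decide), g 0 4 (by decide)⟩ (c (ψ 10))
    ⟨⟨_, g 1 5 (by decide), g 4 5 (by decide), g 5 10 (by decide)⟩,
    ⟨_, g 0 6 (by decide), g 2 6 (by decide), g 6 10 (by decide)⟩,
    ⟨_, g 1 7 (by decide), g 3 7 (by decide), g 7 10 (by decide)⟩,
    ⟨_, g 2 8 (by decide), g 4 8 (by decide), g 8 10 (by decide)⟩,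
    ⟨_, g 0 9 (by decide), g 3 9 (by decide), g 9 10 (by decide)⟩⟩

end Pool.Agent.Results.MP_b1aa48_co.Counter
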